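import Pool.Agent.U345.LF3

/-!
# The Sato-Tate conjecture for products of random hyperelliptic Jacobians: independent Brownian fluctuations of all class functions of
low weight

Let `C_i : y² = f_i(x)`, `i = 1, …, r`, be curves with random integral polynomials `f_i` of degree `n_i ≥ 3`, and let `g_i = ⌊(n_i - 1) / 2⌋` be
their genera. Let `A` be the product of the Jacobians. For a good prime `p` (`p` odd, all `f_i` modulo `p` squarefree of degree `n_i`) let
`t_(i,k)(p) = (p ^ k + 1 - #C_i(𝔽_(p^k))) / p ^ (k / 2)`: this is the trace of the `k`-th power of the conjugacy class `x_p` of the normalised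
Frobenius of `C_i`. Polynomials in the numbers `t_(i,k)`, `k ≤ g_i`, are the same as polynomials in the coefficients of the normalised
`L`-polynomials, or, restricted by the condition that their weight in the variables of the curve number `i` (`t_(i,k)` has weight `k`) is at most
`g_i`, linear combinations of the characters `χ_(λ_1) ⊗ ⋯ ⊗ χ_(λ_r)` of `USp(2 g_1) × ⋯ × USp(2 g_r)` with `|λ_i| ≤ g_i`.

The Haar measure of `USp(2 g_1) × ⋯ × USp(2 g_r)` has, up to the weight `2 g_i + 1`, the same moments as the measure `model`, for which the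
`t_(i,k)` are independent and normal with variance `k` and mean `0` (`k` odd) or `-1` (`k` even); this is a theorem of Diaconis, Shahshahani,
Hughes and Rudnick. So `∫ P` and `∫ P Q` below are the integrals over the Sato-Tate group.

Theorem. Let `Q_1, …, Q_d` be such class functions with `∫ Q_a = 0` and `∫ Q_a Q_b = δ_ab`. Then the processes

`τ ↦ (log X / X) ^ (1 / 2) ∑_{p ≤ τ X, p good} Q_a(x_p)`, `0 ≤ τ ≤ 1`, `a = 1, …, d`,

converge jointly, for `X → ∞`, to `d` INDEPENDENT standard Brownian motions: the finite dimensional distributions converge, and the processes are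
tight. The coefficients of the `f_i` are equidistributed in any boxes whose sides are larger than a power of `X`. Moreover the variance of every
polynomial which is not constant is positive, so that every class function of low weight which is not constant can be normalised (`d = 1`).

So for almost all products of hyperelliptic Jacobians the averages of the class functions of low weight are those which the Sato-Tate
conjecture predicts up to fluctuations of the exact order `π(X) ^ (-1 / 2)`, and these fluctuations are jointly Gaussian, with the covariances of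
the class functions on the Sato-Tate group.

Proof. Library `R318.LP`: the values of a random polynomial at closed points of total degree at most `n + 1` are independent, hence the moments of
the sums over the points of degree `k`; `Q285.HS`: characteristic functions of sums over primes of functions of residues. New
(`U345.Gau`, `LF1`-`LF3`, `Vec`, `Four`, `Max`, `Tight`): the rates of convergence of the moments over a fixed prime, for several
curves, the points at infinity, the comparison with Gaussian integrals and the positivity of the variance; the joint convergence to several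
independent Brownian motions; and the tightness, by fourth moments of the sums over blocks of primes and a maximal inequality.
-/

set_option autoImplicit false

namespace Pool.Agent.Results.MP_c481b3_nt.BrownianClassFunctions

open Finset MeasureTheory ProbabilityTheory
open scoped NNReal

/-- The genus of `y² = f(x)`, `f` squarefree of degree `n`. -/
def genus (n : ℕ) : ℕ := (n - 1) / 2

/-- The number of the points over the field with `p ^ k` elements of the smooth projective curve with the affine equation
`y² = ∑ a_j x ^ j`, where the sum has degree `n`: the affine points and the points at infinity. -/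
noncomputable def points {n : ℕ} (a : Fin (n + 1) → ℤ) (p : ℕ) [Fact p.Prime] (k : ℕ) : ℕ :=
  Nat.card {z : GaloisField p k × GaloisField p k // z.2 ^ 2 = ∑ j : Fin (n + 1), (a j : GaloisField p k) * z.1 ^ (j : ℕ)} +
  Nat.card {z : GaloisField p k // z ^ 2 = if Even n then (a (Fin.last n) : GaloisField p k) else 0}

/-- The trace `(p ^ k + 1 - #C(𝔽_(p^k))) / p ^ (k / 2)` of the `k`-th power of the normalised Frobenius. -/
noncomputable def trace {n : ℕ} (a : Fin (n + 1) → ℤ) (p : ℕ) [Fact p.Prime] (k : ℕ) : ℝ :=
  ((p : ℝ) ^ k + 1 - points a p k) / √((p : ℝ) ^ k)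

/-- The coefficients of `r` polynomials of the degrees `n i` are indexed by the pairs `(i, j)`, `j ≤ n i`. -/
abbrev Coefficients {r : ℕ} (n : Fin r → ℕ) : Type := (i : Fin r) × Fin (n i + 1)

/-- The variables: `(i, k)` stands for the trace of the power number `k + 1`, `k + 1 ≤ genus (n i)`, for the curve number `i`. -/
abbrev Variables {r : ℕ} (n : Fin r → ℕ) : Type := (i : Fin r) × Fin (genus (n i))

/-- `p` is odd, and all polynomials modulo `p` are squarefree of degree `n i`. -/
def Good {r : ℕ} {n : Fin r → ℕ} (c : Coefficients n → ℤ) (p : ℕ) : Prop :=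
  p.Prime ∧ p ≠ 2 ∧ ∀ i, ¬ (p : ℤ) ∣ c ⟨i, Fin.last (n i)⟩ ∧
    Squarefree (∑ j : Fin (n i + 1), Polynomial.C ((c ⟨i, j⟩ : ℤ) : ZMod p) * Polynomial.X ^ (j : ℕ) : Polynomial (ZMod p))

open Classical in
/-- The value of the class function `P` at the normalised Frobenius at `p`, if `p` is good. -/
noncomputable def value {r : ℕ} {n : Fin r → ℕ} (P : MvPolynomial (Variables n) ℝ) (c : Coefficients n → ℤ) (p : ℕ) : ℝ :=
  if h : Good c p then
    haveI : Fact p.Prime := ⟨h.1⟩
    MvPolynomial.eval (fun v => trace (fun j => c ⟨v.1, j⟩) p ((v.2 : ℕ) + 1)) P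
  else 0

/-- The weight of the monomial with the exponents `e` in the traces for the curve number `i` is at most the genus. -/
def LowWeight {r : ℕ} {n : Fin r → ℕ} (P : MvPolynomial (Variables n) ℝ) : Prop :=
  ∀ e ∈ P.support, ∀ i, ∑ k : Fin (genus (n i)), e ⟨i, k⟩ * ((k : ℕ) + 1) ≤ genus (n i)

/-- The variables are independent and normal; the variance of the trace of the `k`-th power is `k`, its mean `-1` for even and `0` for odd
`k`. -/
noncomputable def model {r : ℕ} (n : Fin r → ℕ) : Measure (Variables n → ℝ) :=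
  Measure.pi fun v => gaussianReal (if Even ((v.2 : ℕ) + 1) then -1 else 0) (((v.2 : ℕ) : ℝ≥0) + 1)

/-- The integral over the model. -/
noncomputable def expectation {r : ℕ} {n : Fin r → ℕ} (P : MvPolynomial (Variables n) ℝ) : ℝ :=
  ∫ x, MvPolynomial.eval x P ∂(model n)

/-- The integer vectors `c` with `N i ≤ c i < N i + L i`. -/
noncomputable def box {κ : Type} [Fintype κ] [DecidableEq κ] (N : κ → ℤ) (L : κ → ℕ) : Finset (κ → ℤ) :=
  Fintype.piFinset fun i => Ico (N i) (N i + L i)

/-- The sum `(log X / X) ^ (1 / 2) ∑_{p ≤ τ X} z_p` over primes. -/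
noncomputable def path (z : ℕ → ℝ) (X : ℕ) (τ : ℝ≥0) : ℝ :=
  √(Real.log X / X) * ∑ p ∈ (Icc 1 ⌊(τ : ℝ) * X⌋₊).filter Nat.Prime, z p

/-- The probability that `B(τ) ≤ x(τ)` for all `τ` in the finite set `I`, for a standard Brownian motion `B`. -/
noncomputable def brownian (I : Finset ℝ≥0) (x : I → ℝ) : ℝ := (BrownianReal.projectiveFamily I).real (Set.Iic x)

/-- For `c` equidistributed in boxes with sides at least `X ^ X₁` the processes `τ ↦ path (z a c) X τ`, `0 ≤ τ ≤ 1`, `a < d`, converge
jointly in law to `d` independent standard Brownian motions: the finite dimensional distributions converge, and for every `ε` there is a `δ`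
such that, except for a proportion `ε` of the `c`, all the processes vary by at most `ε` on intervals of length `δ`, for all large
`X`. -/
def ConvergeToIndependentBrownian {κ : Type} [Fintype κ] [DecidableEq κ] {d : ℕ} (z : Fin d → (κ → ℤ) → ℕ → ℝ) : Prop :=
  (∀ I : Finset ℝ≥0, (∀ τ ∈ I, 0 < τ ∧ τ ≤ 1) → ∀ (x : Fin d → I → ℝ) (ε : ℝ), 0 < ε → ∃ X₁ : ℕ, ∀ X : ℕ, X₁ ≤ X →
    ∀ (N : κ → ℤ) (L : κ → ℕ), (∀ i, (X : ℝ) ^ X₁ ≤ L i) →
      |({c ∈ (box N L : Set (κ → ℤ)) | ∀ (a : Fin d) (τ : I), path (z a c) X τ ≤ x a τ}.ncard : ℝ) / ∏ i, (L i : ℝ) -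
        ∏ a, brownian I (x a)| ≤ ε) ∧
  ∀ ε : ℝ, 0 < ε → ∃ δ : ℝ, 0 < δ ∧ ∃ X₁ : ℕ, ∀ X : ℕ, X₁ ≤ X →
    ∀ (N : κ → ℤ) (L : κ → ℕ), (∀ i, (X : ℝ) ^ X₁ ≤ L i) →
      ({c ∈ (box N L : Set (κ → ℤ)) | ∃ (a : Fin d) (σ τ : ℝ≥0), σ ≤ τ ∧ τ ≤ 1 ∧ (τ : ℝ) - σ ≤ δ ∧
        ε < |path (z a c) X τ - path (z a c) X σ|}.ncard : ℝ) ≤ ε * ∏ i, (L i : ℝ)

lemma expectation_eq {r : ℕ} {n : Fin r → ℕ} (P : MvPolynomial (Variables n) ℝ) :
    expectation P = U345L.EP (g := fun i => genus (n i)) P := rfl

lemma points_eq {n : ℕ} (a : Fin (n + 1) → ℤ) (p : ℕ) [hp : Fact p.Prime] (k : ℕ) :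
    points a p k = U345L.pts p (fun j => ((a j : ℤ) : ZMod p)) k := by
  unfold points U345L.pts
  simp only [map_intCast]

lemma trace_eq {n : ℕ} (a : Fin (n + 1) → ℤ) (p : ℕ) [hp : Fact p.Prime] (j : ℕ) :
    trace a p (j + 1) = U345L.sv p (fun j => ((a j : ℤ) : ZMod p)) j := by
  unfold trace U345L.sv
  rw [points_eq]

lemma good_iff {r : ℕ} {n : Fin r → ℕ} (c : Coefficients n → ℤ) (p : ℕ) [hp : Fact p.Prime] :
    Good c p ↔ 3 ≤ p ∧ U345L.good n p (fun x => ((c x : ℤ) : ZMod p)) := by
  have h2 : p ≠ 2 ↔ 3 ≤ p := by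
    have := hp.out.two_le
    omega
  unfold Good U345L.good Pool.Agent.R318.ST.Gu Pool.Agent.R318.ST.evp
  rw [← h2]
  constructor
  · rintro ⟨_, h, h3⟩
    exact ⟨h, fun i => ⟨fun h4 => (h3 i).1 ((ZMod.intCast_zmod_eq_zero_iff_dvd _ p).1 h4), (h3 i).2⟩⟩
  · rintro ⟨h, h3⟩
    exact ⟨hp.out, h, fun i => ⟨fun h4 => (h3 i).1 ((ZMod.intCast_zmod_eq_zero_iff_dvd _ p).2 h4), (h3 i).2⟩⟩

lemma value_eq {r : ℕ} {n : Fin r → ℕ} (P : MvPolynomial (Variables n) ℝ) (c : Coefficients n → ℤ) (p : ℕ) (hp : p.Prime) :
    value P c p = U345L.HQ n (fun i => genus (n i)) P p fun x => ((c x : ℤ) : ZMod p) := by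
  classical
  have : Fact p.Prime := ⟨hp⟩
  unfold value U345L.HQ
  by_cases h : Good c p
  · have h1 := (good_iff c p).1 h
    rw [dif_pos h, dif_pos ⟨hp, h1.1⟩, if_pos h1.2]
    have h2 : (fun v : Variables n => trace (fun j => c ⟨v.1, j⟩) p ((v.2 : ℕ) + 1)) =
        U345L.sq n (fun i => genus (n i)) p fun x => ((c x : ℤ) : ZMod p) := by
      funext v
      exact trace_eq _ p v.2
    rw [h2]
  · rw [dif_neg h]
    by_cases h3 : 3 ≤ p
    · rw [dif_pos ⟨hp, h3⟩, if_neg fun h4 => h ((good_iff c p).2 ⟨h3, h4⟩)]
    · rw [dif_neg fun h4 => h3 h4.2]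

/-- **Theorem.** Let `n i ≥ 3` for all `i`.

(1) Let `Q_1, …, Q_d` be polynomials of weight at most `genus (n i)` in the traces of the powers of the Frobenius of the curve number
`i`, for all `i`, with `∫ Q_a = 0` and `∫ Q_a Q_b = δ_ab`. Then the processes `τ ↦ (log X / X) ^ (1 / 2) ∑_{p ≤ τ X, p good} Q_a(x_p)` converge jointly
to `d` independent Brownian motions.

(2) The variance of a polynomial which is not constant is positive. -/
theorem result {r : ℕ} (n : Fin r → ℕ) (hn : ∀ i, 3 ≤ n i) :
    (∀ (d : ℕ) (Q : Fin d → MvPolynomial (Variables n) ℝ), (∀ a, LowWeight (Q a)) → (∀ a, expectation (Q a) = 0) →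
      (∀ a b, expectation (Q a * Q b) = if a = b then 1 else 0) →
      ConvergeToIndependentBrownian fun a c p => value (Q a) c p) ∧
    ∀ P : MvPolynomial (Variables n) ℝ, (∀ s : ℝ, P ≠ MvPolynomial.C s) → 0 < expectation (P ^ 2) - expectation P ^ 2 := by
  refine ⟨fun d Q hQ h1 h2 => ?_, fun P hP => ?_⟩
  · refine U345L.conv_LF n (fun i => genus (n i)) (fun i => by have := hn i; omega) Q (fun k e he i => ?_) h1 h2 _
      (fun k t p hp => value_eq (Q k) t p hp)
    refine (hQ k e he i).trans_lt ?_
    have := hn i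
    unfold genus
    omega
  · exact U345L.var_pos (g := fun i => genus (n i)) P hP

end Pool.Agent.Results.MP_c481b3_nt.BrownianClassFunctions
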