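import Pool.Agent.K4H40.ST.Final

/-!
# MP_c481b3_nt: the Sato-Tate conjecture over all fields and over locally trivial fields

`K` is a number field, `ρ` is a symplectic representation of `Gal(K̄/K)`, unramified outside a finite
set, for instance the representation on `V_ℓ(A)` for an abelian variety `A` over `K`.  Let `M` be any
finite Galois extension of `K`, `S` any finite set of primes of `K` and `N₀` any number.

The Sato-Tate conjecture holds for `ρ` over ALL finite extensions of `K` if it holds over those finite
extensions `E` of `K` which are locally trivial for `M`, `S` and `N₀`: `EM/E` is cyclic, unramified at
all finite and infinite places, all primes of `E` above `S` split completely in `EM`, and `EM` is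
contained in `E(ζ_p)` for a prime number `p > N₀`.

The definitions are in `Pool/Agent/K4H40/ST/Statement.lean`.  The theorem is the final theorem of the
project `Pool.Agent.K4H40.ST` of the starting library, which was not handed in (the starting hand-in
`DescentFromManyFields` of this problem uses the same definitions for a different theorem).  The proof:
the conjecture over `L` for a class function is an assertion about the mean values of the function at
the primes of `L`, which is compatible with induction; by Chebotarev's theorem for the compositum with
cyclotomic fields the cyclic subgroups which are needed in the induction theorem of Artin can be taken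
locally trivial.
-/

set_option autoImplicit false

namespace Pool.Agent.Results.MP_c481b3_nt.LocallyTrivialFields

open Pool.Agent.K4H40.ST
open NumberField IsDedekindDomain

/-- For every finite Galois extension `M` of `K`, every finite set `S` of primes and every `N₀`: the
Sato-Tate conjecture for `ρ` over all finite extensions of `K` is equivalent to the conjecture over the
finite extensions which are locally trivial for `M`, `S`, `N₀`. -/
theorem result {K : Type} [Field K] [NumberField K] {g : ℕ} {R : Type} [CommRing R]
    (ρ : Gal(AlgebraicClosure K/K) →* GL (Fin g ⊕ Fin g) R) (ι : R →+* ℂ)
    (hsymp : IsSymplectic ρ) (hunr : IsUnramified K (AlgebraicClosure K) ρ)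
    (M : IntermediateField K (AlgebraicClosure K)) [FiniteDimensional K M] [IsGalois K M]
    (S : Set (HeightOneSpectrum (𝓞 K))) (hS : S.Finite) (N₀ : ℕ) :
    (∀ (L : IntermediateField K (AlgebraicClosure K)) [NumberField L], SatoTateOver ρ ι L) ↔
    (∀ (E : IntermediateField K (AlgebraicClosure K)) [NumberField E],
      LocallyTrivial K (AlgebraicClosure K) M S N₀ E → SatoTateOver ρ ι E) :=
  Pool.Agent.K4H40.ST.Final.final ρ ι hsymp hunr M S hS N₀

end Pool.Agent.Results.MP_c481b3_nt.LocallyTrivialFields
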