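import Pool.Agent.U981.ST.Dich

/-!
# The Sato-Tate law for products: mere meromorphy decides

`K` is a number field, `A` and `A'` are abelian varieties over `K` with the Sato-Tate groups `G` and
`G'`, and `x_v ∈ G`, `x'_v ∈ G'` are elements of the classes of the prime `v` of `K` (any elements at
the finitely many exceptional primes; this changes the `L`-functions below by finitely many factors
without zeros and poles in `Re s > 0`). Suppose that the Sato-Tate law holds for `A` and for `A'`.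

The law for `A × A'`, with the largest possible Sato-Tate group `G × G'`, says that the pairs
`(x_v, x'_v)` are equidistributed in `G × G'`. The criterion of Serre asks for the continuation of
all `L(π ⊗ π', s) = ∏_v det(1 - q_v^{-s} π(x_v) ⊗ π'(x'_v))⁻¹`, `π`, `π'` nontrivial irreducible
representations of `G`, `G'`, to `Re s ≥ 1` without zeros and poles. The theorem says:

I. Let `π`, `π'` be nontrivial and irreducible, `τ` real. If the absolute values of the characters
of `π` and `π'` do not have the same law then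
`|log |L(π ⊗ π', 1 + iτ + ε)|| ≤ (1 - δ) log (1 / ε)` for small `ε`, without any continuation. If
`L(π ⊗ π', s)` has a meromorphic continuation to a neighbourhood of `1 + iτ`, then its order `m` there
is `-1`, `0` or `1`, and `m = -σ ≠ 0` if and only if `π`, `π'` are twins at height `τ` with the sign
`σ`: `χ_π(x_v) - σ q_v^{iτ} conj χ_π'(x'_v)` is as small as we like outside sets of primes of density
zero; the absolute values of the characters then have the same law.

II. If all these `L`-functions have meromorphic continuations to neighbourhoods of all points of the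
line `Re s = 1`, then the law for `A × A'` holds if and only if there are no twins. In particular it
holds if no two nontrivial irreducible characters of `G` and `G'` have absolute values with the same
law.

III. If the law for `A × A'` holds then `log |L(π ⊗ π', 1 + iτ + ε)| = o (log (1 / ε))` for all `π`,
`π'`, `τ`, without any continuation.
-/

set_option autoImplicit false

namespace Pool.Agent.Results.MP_c481b3_nt.ProductsFromMeromorphy

open NumberField IsDedekindDomain Filter Topology MeasureTheory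
open scoped ComplexConjugate Kronecker

section

variable {K : Type} [Field K] [NumberField K]

/-- The average of `φ` over the primes of `K` of norm at most `N`. -/
noncomputable def avg (φ : HeightOneSpectrum (𝓞 K) → ℂ) (N : ℕ) : ℂ :=
  (∑ᶠ v : {v : HeightOneSpectrum (𝓞 K) // Ideal.absNorm v.asIdeal ≤ N}, φ v.1) /
    (Nat.card {v : HeightOneSpectrum (𝓞 K) // Ideal.absNorm v.asIdeal ≤ N} : ℂ)

/-- The set `S` of primes has density zero (in the sense of Dirichlet). -/
def DensityZero (S : Set (HeightOneSpectrum (𝓞 K))) : Prop :=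
  Tendsto (fun ε : ℝ => (∑' v, S.indicator (fun _ => (1 : ℝ)) v *
      (Ideal.absNorm v.asIdeal : ℝ) ^ (-(1 + ε))) /
    ∑' v : HeightOneSpectrum (𝓞 K), (1 : ℝ) * (Ideal.absNorm v.asIdeal : ℝ) ^ (-(1 + ε)))
    (𝓝[>] 0) (𝓝 0)

/-- The classes of the `x v` are equidistributed for `μ`. -/
def Equidistributed {G : Type} [Group G] [TopologicalSpace G] [MeasurableSpace G]
    (x : HeightOneSpectrum (𝓞 K) → G) (μ : Measure G) : Prop :=
  ∀ f : G → ℂ, Continuous f → (∀ g h, f (h * g * h⁻¹) = f g) →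
    Tendsto (avg fun v => f (x v)) atTop (𝓝 (∫ g, f g ∂μ))

/-- The classes of the pairs `(x v, x' v)` are equidistributed for the product of `μ` and `μ'`. -/
def JointlyEquidistributed {G G' : Type} [Group G] [TopologicalSpace G] [MeasurableSpace G]
    [Group G'] [TopologicalSpace G'] [MeasurableSpace G'] (x : HeightOneSpectrum (𝓞 K) → G)
    (x' : HeightOneSpectrum (𝓞 K) → G') (μ : Measure G) (μ' : Measure G') : Prop :=
  ∀ f : G × G' → ℂ, Continuous f →
    (∀ g g' h h', f (h * g * h⁻¹, h' * g' * h'⁻¹) = f (g, g')) →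
    Tendsto (avg fun v => f (x v, x' v)) atTop (𝓝 (∫ p, f p ∂(μ.prod μ')))

end

section

variable {G : Type} [Group G] {n : ℕ} {G' : Type} [Group G'] {n' : ℕ}

/-- The character of `π`. -/
noncomputable def tr (π : G →* Matrix.unitaryGroup (Fin n) ℂ) (g : G) : ℂ :=
  (π g : Matrix (Fin n) (Fin n) ℂ).trace

/-- The unitary representation `π` is continuous, irreducible (only the scalars commute with all
matrices `π g`) and not trivial. -/
structure IsNontrivialIrreducible [TopologicalSpace G]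
    (π : G →* Matrix.unitaryGroup (Fin n) ℂ) : Prop where
  continuous : Continuous π
  schur : ∀ A : Matrix (Fin n) (Fin n) ℂ, (∀ g, (π g : Matrix (Fin n) (Fin n) ℂ) * A = A * π g) →
    ∃ c : ℂ, A = c • (1 : Matrix (Fin n) (Fin n) ℂ)
  nontrivial : ∃ g, π g ≠ 1

/-- The absolute values of the characters of `π` and `π'` have the same law (the same moments). -/
def SameLaw [MeasurableSpace G] [MeasurableSpace G'] (π : G →* Matrix.unitaryGroup (Fin n) ℂ)
    (μ : Measure G) (π' : G' →* Matrix.unitaryGroup (Fin n') ℂ) (μ' : Measure G') : Prop :=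
  ∀ k : ℕ, ∫ g, (‖tr π g‖ ^ 2) ^ k ∂μ = ∫ g, (‖tr π' g‖ ^ 2) ^ k ∂μ'

variable {K : Type} [Field K] [NumberField K]

/-- The Euler product `L(π ⊗ π', s) = ∏_v det(1 - q_v^{-s} π(x_v) ⊗ π'(x'_v))⁻¹`. -/
noncomputable def LFun (π : G →* Matrix.unitaryGroup (Fin n) ℂ) (x : HeightOneSpectrum (𝓞 K) → G)
    (π' : G' →* Matrix.unitaryGroup (Fin n') ℂ) (x' : HeightOneSpectrum (𝓞 K) → G') (s : ℂ) : ℂ :=
  ∏' v : HeightOneSpectrum (𝓞 K), (Matrix.det (1 - ((Ideal.absNorm v.asIdeal : ℂ) ^ (-s)) •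
    ((π (x v) : Matrix (Fin n) (Fin n) ℂ) ⊗ₖ (π' (x' v) : Matrix (Fin n') (Fin n') ℂ))))⁻¹

/-- `log |L(π ⊗ π', 1 + iτ + ε)| / log (1/ε)`. -/
noncomputable def size (π : G →* Matrix.unitaryGroup (Fin n) ℂ)
    (x : HeightOneSpectrum (𝓞 K) → G) (π' : G' →* Matrix.unitaryGroup (Fin n') ℂ)
    (x' : HeightOneSpectrum (𝓞 K) → G') (τ ε : ℝ) : ℝ :=
  Real.log ‖LFun π x π' x' (1 + τ * Complex.I + ε)‖ / Real.log (1 / ε)

/-- `Λ` is a meromorphic continuation of `L(π ⊗ π', s)` to a neighbourhood of `1 + iτ`. -/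
def IsContinuation (π : G →* Matrix.unitaryGroup (Fin n) ℂ) (x : HeightOneSpectrum (𝓞 K) → G)
    (π' : G' →* Matrix.unitaryGroup (Fin n') ℂ) (x' : HeightOneSpectrum (𝓞 K) → G')
    (τ : ℝ) (Λ : ℂ → ℂ) : Prop :=
  MeromorphicAt Λ (1 + τ * Complex.I) ∧
    ∀ᶠ s in 𝓝 ((1 : ℂ) + τ * Complex.I), (1 : ℝ) < s.re → Λ s = LFun π x π' x' s

/-- `χ_π(x_v) - σ q_v^{iτ} conj χ_π'(x'_v)` has absolute value at most `δ` outside a set of primes of
density zero, for all `δ > 0`. -/
def AreTwins (π : G →* Matrix.unitaryGroup (Fin n) ℂ) (x : HeightOneSpectrum (𝓞 K) → G)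
    (π' : G' →* Matrix.unitaryGroup (Fin n') ℂ) (x' : HeightOneSpectrum (𝓞 K) → G')
    (τ σ : ℝ) : Prop :=
  ∀ δ : ℝ, 0 < δ → DensityZero {v | δ < ‖tr π (x v) -
    σ * ((Ideal.absNorm v.asIdeal : ℂ) ^ ((τ : ℂ) * Complex.I) * conj (tr π' (x' v)))‖}

end

section Bridge

set_option linter.unusedSectionVars false

open Pool.Agent.TH553.ST Pool.Agent.TH553.RS Pool.Agent.W540.BE Pool.Agent.U981.ST

variable {K : Type} [Field K] [NumberField K]

theorem avg_eq (g : HeightOneSpectrum (𝓞 K) → ℂ) : avg g = mn g := by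
  funext N
  have hs : ∀ v, v ∈ upto K N ↔ Ideal.absNorm v.asIdeal ≤ N := fun v => mem_upto
  let e : {v : HeightOneSpectrum (𝓞 K) // Ideal.absNorm v.asIdeal ≤ N} ≃ (upto K N) :=
    Equiv.subtypeEquivRight fun v => (hs v).symm
  have hfin : Finite {v : HeightOneSpectrum (𝓞 K) // Ideal.absNorm v.asIdeal ≤ N} :=
    Finite.of_equiv _ e.symm
  unfold avg mn
  have h1 : (∑ᶠ v : {v : HeightOneSpectrum (𝓞 K) // Ideal.absNorm v.asIdeal ≤ N}, g v.1) =
      ∑ v ∈ upto K N, g v := by
    rw [← Finset.sum_coe_sort, ← finsum_eq_sum_of_fintype, ← finsum_comp_equiv e]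
    rfl
  have h2 : Nat.card {v : HeightOneSpectrum (𝓞 K) // Ideal.absNorm v.asIdeal ≤ N} =
      (upto K N).card := by
    rw [Nat.card_congr e, Nat.card_eq_fintype_card, Fintype.card_coe]
  rw [h1, h2, Complex.real_smul, div_eq_inv_mul]
  push_cast
  rfl

theorem densityZero_eq (S : Set (HeightOneSpectrum (𝓞 K))) : DensityZero S = DZ K S := rfl

variable {G : Type} [Group G] [TopologicalSpace G] [IsTopologicalGroup G] [CompactSpace G]
  [MeasurableSpace G] [BorelSpace G] {μ : Measure G} [IsProbabilityMeasure μ] [μ.IsHaarMeasure]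
  {x : HeightOneSpectrum (𝓞 K) → G} {n : ℕ} {π : G →* Matrix.unitaryGroup (Fin n) ℂ}
  {G' : Type} [Group G'] [TopologicalSpace G'] [IsTopologicalGroup G'] [CompactSpace G']
  [MeasurableSpace G'] [BorelSpace G'] {μ' : Measure G'} [IsProbabilityMeasure μ']
  [μ'.IsHaarMeasure]
  {x' : HeightOneSpectrum (𝓞 K) → G'} {n' : ℕ} {π' : G' →* Matrix.unitaryGroup (Fin n') ℂ}

theorem law_of (h : Equidistributed x μ) : Law x μ := by
  intro f hf hcl
  have h1 := h (fun g => (f g : ℂ)) (Complex.continuous_ofReal.comp hf) fun g h => by rw [hcl]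
  have h0 : ∫ g, (f g : ℂ) ∂μ = ((∫ g, f g ∂μ : ℝ) : ℂ) := integral_ofReal
  rw [avg_eq, h0] at h1
  have h2 := (Complex.continuous_re.tendsto _).comp h1
  refine h2.congr fun N => ?_
  simp only [Function.comp]
  rw [re_mn]
  rfl

theorem df_eq (τ σ : ℝ) (v : HeightOneSpectrum (𝓞 K)) :
    df σ (tc π x 0) (tc π' x' τ) v = tr π (x v) -
      σ * ((Ideal.absNorm v.asIdeal : ℂ) ^ ((τ : ℂ) * Complex.I) * conj (tr π' (x' v))) := by
  have h1 : ‖((nm K v : ℕ) : ℂ) ^ (-((τ : ℂ) * Complex.I))‖ = 1 := norm_cpow_I (nm_pos v) τ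
  have h2 : conj (((nm K v : ℕ) : ℂ) ^ (-((τ : ℂ) * Complex.I))) =
      ((nm K v : ℕ) : ℂ) ^ ((τ : ℂ) * Complex.I) := by
    have h3 : ((nm K v : ℕ) : ℂ) ^ (-((τ : ℂ) * Complex.I)) *
        conj (((nm K v : ℕ) : ℂ) ^ (-((τ : ℂ) * Complex.I))) = 1 := by
      rw [Complex.mul_conj, Complex.normSq_eq_norm_sq, h1]
      norm_num
    have h4 := eq_inv_of_mul_eq_one_right h3
    rw [h4, ← Complex.cpow_neg, neg_neg]
  unfold df tc
  rw [map_mul, h2]
  simp only [Complex.ofReal_zero, zero_mul, neg_zero, Complex.cpow_zero, mul_one]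
  unfold chi tr nm
  ring

theorem twins_iff (τ σ : ℝ) : AreTwins π x π' x' τ σ ↔ Twin π x π' x' τ σ := by
  unfold AreTwins Twin
  refine forall_congr' fun δ => forall_congr' fun _ => ?_
  rw [densityZero_eq]
  simp only [df_eq]

theorem size_eq (τ : ℝ) : size π x π' x' τ = sz π x π' x' τ := rfl

theorem ne_zero_of_nontrivial (h : ∃ g, π g ≠ 1) : n ≠ 0 := by
  rintro rfl
  obtain ⟨g, hg⟩ := h
  apply hg
  apply Subtype.ext
  ext i
  exact i.elim0

end Bridge

/-- **The Sato-Tate law for products: mere meromorphy decides.** -/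
theorem result {K : Type} [Field K] [NumberField K]
    {G : Type} [Group G] [TopologicalSpace G] [IsTopologicalGroup G] [CompactSpace G] [T2Space G]
    [SecondCountableTopology G] [MeasurableSpace G] [BorelSpace G] (μ : Measure G)
    [IsProbabilityMeasure μ] [μ.IsHaarMeasure]
    {G' : Type} [Group G'] [TopologicalSpace G'] [IsTopologicalGroup G'] [CompactSpace G']
    [T2Space G'] [SecondCountableTopology G'] [MeasurableSpace G'] [BorelSpace G']
    (μ' : Measure G') [IsProbabilityMeasure μ'] [μ'.IsHaarMeasure]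
    (x : HeightOneSpectrum (𝓞 K) → G) (x' : HeightOneSpectrum (𝓞 K) → G')
    (hx : Equidistributed x μ) (hx' : Equidistributed x' μ') :
    -- I. zeros and poles
    (∀ (n n' : ℕ) (π : G →* Matrix.unitaryGroup (Fin n) ℂ)
      (π' : G' →* Matrix.unitaryGroup (Fin n') ℂ), IsNontrivialIrreducible π →
      IsNontrivialIrreducible π' → ∀ τ : ℝ,
      (¬ SameLaw π μ π' μ' → ∃ δ : ℝ, 0 < δ ∧ ∀ᶠ ε in 𝓝[>] (0 : ℝ),
        |size π x π' x' τ ε| ≤ 1 - δ) ∧
      ∀ Λ : ℂ → ℂ, IsContinuation π x π' x' τ Λ → ∃ m : ℤ,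
        meromorphicOrderAt Λ (1 + τ * Complex.I) = m ∧ |m| ≤ 1 ∧
        (m ≠ 0 → SameLaw π μ π' μ') ∧
        ∀ σ : ℝ, σ ≠ 0 → ((m : ℝ) = -σ ↔ AreTwins π x π' x' τ σ)) ∧
    -- II. the law for the product
    ((∀ (n n' : ℕ) (π : G →* Matrix.unitaryGroup (Fin n) ℂ)
      (π' : G' →* Matrix.unitaryGroup (Fin n') ℂ), IsNontrivialIrreducible π →
      IsNontrivialIrreducible π' → ∀ τ : ℝ, ∃ Λ : ℂ → ℂ, IsContinuation π x π' x' τ Λ) →
      (JointlyEquidistributed x x' μ μ' ↔
        ¬ ∃ (n n' : ℕ) (π : G →* Matrix.unitaryGroup (Fin n) ℂ)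
          (π' : G' →* Matrix.unitaryGroup (Fin n') ℂ) (τ σ : ℝ), IsNontrivialIrreducible π ∧
          IsNontrivialIrreducible π' ∧ (σ = 1 ∨ σ = -1) ∧ AreTwins π x π' x' τ σ)) ∧
    -- III. the size of the `L`-functions under the law for the product
    (JointlyEquidistributed x x' μ μ' → ∀ (n n' : ℕ) (π : G →* Matrix.unitaryGroup (Fin n) ℂ)
      (π' : G' →* Matrix.unitaryGroup (Fin n') ℂ), IsNontrivialIrreducible π →
      IsNontrivialIrreducible π' → ∀ τ : ℝ,
      Tendsto (size π x π' x' τ) (𝓝[>] 0) (𝓝 0)) := by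
  have hl := law_of hx
  have hl' := law_of hx'
  have key1 : ∀ (n n' : ℕ) (π : G →* Matrix.unitaryGroup (Fin n) ℂ)
      (π' : G' →* Matrix.unitaryGroup (Fin n') ℂ), IsNontrivialIrreducible π →
      IsNontrivialIrreducible π' → ∀ τ : ℝ, ∀ Λ : ℂ → ℂ, IsContinuation π x π' x' τ Λ → ∃ m : ℤ,
        meromorphicOrderAt Λ (1 + τ * Complex.I) = m ∧ |m| ≤ 1 ∧
        (m ≠ 0 → SameLaw π μ π' μ') ∧
        ∀ σ : ℝ, σ ≠ 0 → ((m : ℝ) = -σ ↔ AreTwins π x π' x' τ σ) := by
    intro n n' π π' hπ hπ' τ Λ hΛ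
    obtain ⟨m, h1, h2⟩ := Pool.Agent.TH553.ST.order_LP hΛ.1 hΛ.2
    refine ⟨m, h1, ?_, ?_, ?_⟩
    · by_cases hm : m = 0
      · rw [hm]
        norm_num
      · exact (Pool.Agent.U981.ST.twin_of_order hl hl' hπ.continuous hπ.schur hπ'.continuous
          hπ'.schur h2 hm).1.le
    · intro hm
      exact (Pool.Agent.U981.ST.twin_of_order hl hl' hπ.continuous hπ.schur hπ'.continuous
          hπ'.schur h2 hm).2.1
    · intro σ hσ
      rw [twins_iff]
      constructor
      · intro h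
        have hm : m ≠ 0 := by
          rintro rfl
          apply hσ
          rw [Int.cast_zero] at h
          linarith
        have h3 := (Pool.Agent.U981.ST.twin_of_order hl hl' hπ.continuous hπ.schur
          hπ'.continuous hπ'.schur h2 hm).2.2
        rwa [h, neg_neg] at h3
      · intro h
        have h3 := h.size hl' hπ'.continuous hπ'.schur (ne_zero_of_nontrivial hπ'.nontrivial)
        have h4 := tendsto_nhds_unique h2 h3
        linarith
  have key3 : JointlyEquidistributed x x' μ μ' → ∀ (n n' : ℕ)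
      (π : G →* Matrix.unitaryGroup (Fin n) ℂ)
      (π' : G' →* Matrix.unitaryGroup (Fin n') ℂ), IsNontrivialIrreducible π →
      IsNontrivialIrreducible π' → ∀ τ : ℝ,
      Tendsto (size π x π' x' τ) (𝓝[>] 0) (𝓝 0) := by
    intro hJ n n' π π' hπ hπ' τ
    refine Pool.Agent.U981.ST.size_of_avg ?_ τ
    have h1 := hJ (fun p => tr π p.1 * tr π' p.2)
      (((Pool.Agent.TH553.ST.cont_chi hπ.continuous).comp continuous_fst).mul
        ((Pool.Agent.TH553.ST.cont_chi hπ'.continuous).comp continuous_snd))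
      (fun g g' h h' => by
        have e1 := Pool.Agent.TH553.ST.chi_cls π g h
        have e2 := Pool.Agent.TH553.ST.chi_cls π' g' h'
        exact congrArg₂ (· * ·) e1 e2)
    rw [avg_eq] at h1
    have h2 : ∫ p, tr π p.1 * tr π' p.2 ∂(μ.prod μ') = 0 := by
      rw [integral_prod_mul]
      have h3 : ∫ g, tr π g ∂μ = 0 :=
        Pool.Agent.TH553.ST.int_chi hπ.continuous hπ.schur hπ.nontrivial
      rw [h3, zero_mul]
    rw [h2] at h1
    exact h1
  refine ⟨fun n n' π π' hπ hπ' τ => ⟨fun hd => Pool.Agent.TH553.ST.pair_lt hl hl' hπ.continuous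
    hπ.schur hπ'.continuous hπ'.schur hd τ, key1 n n' π π' hπ hπ' τ⟩, fun hcont => ⟨?_, ?_⟩, key3⟩
  · rintro hJ ⟨n, n', π, π', τ, σ, hπ, hπ', hσ, ht⟩
    rw [twins_iff] at ht
    have h3 := ht.size hl' hπ'.continuous hπ'.schur (ne_zero_of_nontrivial hπ'.nontrivial)
    have h4 := tendsto_nhds_unique h3 (key3 hJ n n' π π' hπ hπ' τ)
    rcases hσ with h | h <;> rw [h] at h4 <;> norm_num at h4
  · intro hno f hf hcl
    rw [avg_eq]
    refine Pool.Agent.U981.ST.joint_of_avg hl hl' ?_ hf hcl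
    intro n n' π π' hc hs ht hc' hs' ht'
    have hπ : IsNontrivialIrreducible π := ⟨hc, hs, ht⟩
    have hπ' : IsNontrivialIrreducible π' := ⟨hc', hs', ht'⟩
    refine Pool.Agent.U981.ST.avg_of_orders fun τ => ?_
    obtain ⟨Λ, hΛ⟩ := hcont n n' π π' hπ hπ' τ
    refine ⟨Λ, hΛ.1, hΛ.2, ?_⟩
    obtain ⟨m, h1, h2, -, h4⟩ := key1 n n' π π' hπ hπ' τ Λ hΛ
    have hm : m = 0 := by
      by_contra hm
      apply hno
      have h5 : (m : ℝ) ≠ 0 := by exact_mod_cast hm
      refine ⟨n, n', π, π', τ, -(m : ℝ), hπ, hπ', ?_, (h4 (-(m : ℝ)) (neg_ne_zero.2 h5)).1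
        (neg_neg _).symm⟩
      have h6 : m = 1 ∨ m = -1 := by
        have := abs_le.1 h2
        omega
      rcases h6 with h | h <;> rw [h] <;> norm_num
    rw [h1, hm]
    rfl

end Pool.Agent.Results.MP_c481b3_nt.ProductsFromMeromorphy
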