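import Pool.Agent.U681.UT.All

/-!
# MP_c481b3_nt: the Sato-Tate law of the quadratic twists, uniformly in the twist

`K` is a number field, `ρ` the representation of `Gal(K̄/K)` on `V_ℓ(A)` for an abelian variety `A` over
`K` of dimension `g` (here: any symplectic representation, unramified outside a finite set), `C` a
Sato-Tate group, `x` the system of the Frobenius classes of `A` in `C`.  `A_d` is the quadratic twist of
`A` by the squarefree integer `d`.  `C` is also a Sato-Tate group of `A_d`, so Q1 predicts the same law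
for `A_d` and for `A`.

We compare, at the scale `M` (primes of norm at most `M`), the laws of the `L`-polynomials of all the
twists `A_d` with `|d| ≤ N^c`, where `c > 0` is any fixed number, for all the scales `M` from `N` to `N'`.

The proof: Selberg's sieve weights and the Pólya-Vinogradov inequality give a large sieve inequality
for quadratic characters at products of primes; it is applied to the powers of the sums over primes.
-/

set_option autoImplicit false

namespace Pool.Agent.Results.MP_c481b3_nt.UniformTwists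

open NumberField IsDedekindDomain Filter Topology MeasureTheory
open Pool.Agent.K4H40.ST Pool.Agent.U681.STw
open Pool.Agent.U681.UT (lp IsTest IsTwistSystem)

/-- The squarefree integer `d`, `|d| ≤ N^c`, is exceptional for the laws `L`: for a system `y` of the
classes of the twist `A_d` (at the primes off `Z` that do not divide `2 d`), a scale `M` with
`N ≤ M ≤ N'` and a test function `f`, the mean of `f` over the `L`-polynomials of `A_d` at the scale `M`
differs from `L M f` by at least `1/k`. -/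
def IsExceptional {K : Type} [Field K] [NumberField K] {g : ℕ}
    (r : Gal(AlgebraicClosure K/K) →* GL (Fin g ⊕ Fin g) ℂ) (C : Subgroup (GL (Fin g ⊕ Fin g) ℂ))
    (Z : Set (HeightOneSpectrum (𝓞 K))) (c : ℝ) (k N N' : ℕ)
    (L : ℕ → ((Fin g → ℝ) → ℝ) → ℝ) (d : ℤ) : Prop :=
  Squarefree d ∧ |(d : ℝ)| ≤ (N : ℝ) ^ c ∧
    ∃ y : HeightOneSpectrum (𝓞 K) → C, IsTwistSystem r C Z (d : 𝓞 K) y ∧
      ∃ M : ℕ, N ≤ M ∧ M ≤ N' ∧ ∃ f : (Fin g → ℝ) → ℝ, IsTest f ∧
        1 / (k : ℝ) ≤ |mean K (fun v => f (lp (y v : GL (Fin g ⊕ Fin g) ℂ))) M - L M f|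

/-- **The laws of the quadratic twists, uniformly in the twist and in the scale.**  For every `c > 0`
and `k ≥ 1` there is a number `B` that depends only on `g`, `n = [K:ℚ]`, `k` and `c`, such that at all
large `N` and for all `N' ≥ N`:

1. (unconditional) for all but `B (1 + log (N'/N)) (log N')^⌊c⌋` of the squarefree integers `d` with
`|d| ≤ N^c`, at every scale `M` from `N` to `N'` the law of the `L`-polynomials of `A_d` is the
symmetrisation of the law of the `L`-polynomials of `A`, up to `1/k`, for all test functions;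

2. if the `L`-polynomials of `A` are equidistributed for the image of the Haar probability measure `μ` of
`C` (a part of Q1), then for all but `B (1 + log (N'/N)) (log N')^⌊c⌋` of the squarefree integers `d`
with `|d| ≤ N^c`, at every scale `M` from `N` to `N'` the `L`-polynomials of `A_d` follow the image of
`μ`, up to `1/k`, for all test functions.

For `c < 1` and `N' = N` the number of the exceptions is bounded. -/
theorem result (g n k : ℕ) (hk : 1 ≤ k) (c : ℝ) (hc : 0 < c) : ∃ B : ℝ,
    ∀ (K : Type) [Field K] [NumberField K] (_ : Module.finrank ℚ K = n) (R : Type) [CommRing R]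
      (ρ : Gal(AlgebraicClosure K/K) →* GL (Fin g ⊕ Fin g) R) (ι : R →+* ℂ)
      (_ : IsSymplectic ρ) (_ : IsUnramified K (AlgebraicClosure K) ρ)
      (C : Subgroup (GL (Fin g ⊕ Fin g) ℂ)) (_ : IsSatoTateGroup (extend ρ ι) C)
      (x : HeightOneSpectrum (𝓞 K) → C)
      (_ : IsClassSystem K (AlgebraicClosure K) (extend ρ ι) C x)
      (Z : Set (HeightOneSpectrum (𝓞 K))) (_ : Z.Finite),
      (∀ᶠ N : ℕ in atTop, ∀ N' : ℕ, N ≤ N' →
        ({d : ℤ | IsExceptional (extend ρ ι) C Z c k N N' (fun M f =>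
          mean K (fun v => (f (lp (x v : GL (Fin g ⊕ Fin g) ℂ)) +
            f (lp (-(x v : GL (Fin g ⊕ Fin g) ℂ)))) / 2) M) d}.ncard : ℝ) ≤
        B * (1 + Real.log (N' / N)) * Real.log N' ^ ⌊c⌋₊) ∧
      ∀ [MeasurableSpace C] [BorelSpace C] (μ : Measure C) [IsProbabilityMeasure μ]
        [μ.IsMulLeftInvariant],
        (∀ f : (Fin g → ℝ) → ℝ, Continuous f →
          Tendsto (mean K fun v => f (lp (x v : GL (Fin g ⊕ Fin g) ℂ))) atTop
            (𝓝 (∫ z : C, f (lp (z : GL (Fin g ⊕ Fin g) ℂ)) ∂μ))) →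
        ∀ᶠ N : ℕ in atTop, ∀ N' : ℕ, N ≤ N' →
          ({d : ℤ | IsExceptional (extend ρ ι) C Z c k N N' (fun _ f =>
            ∫ z : C, f (lp (z : GL (Fin g ⊕ Fin g) ℂ)) ∂μ) d}.ncard : ℝ) ≤
          B * (1 + Real.log (N' / N)) * Real.log N' ^ ⌊c⌋₊ := by
  refine ⟨Pool.Agent.U681.UT.bnd' g n k c, ?_⟩
  intro K _ _ hn R _ ρ ι hsymp hunr C hC x hx Z hZ
  subst hn
  have hkR : (0 : ℝ) < k := by exact_mod_cast hk
  have hall := Pool.Agent.U681.UT.all_scales hsymp hunr hC hx hZ hc hk
  refine ⟨?_, ?_⟩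
  · filter_upwards [hall] with N hN N' hNN'
    refine hN N' hNN' _ ?_
    rintro d ⟨h1, h2, y, h3, M, h4, h5, f, hf, hge⟩
    refine ⟨h1, h2, y, h3, M, h4, h5, f, hf, le_trans ?_ hge⟩
    rw [div_le_div_iff₀ (by positivity) hkR]
    linarith
  · intro _ _ μ _ _ hμ
    have hsp : ∀ c ∈ C, (c : GL (Fin g ⊕ Fin g) ℂ).val ∈ Matrix.symplecticGroup (Fin g) ℂ :=
      fun c hc => (hC.sub hc).2
    obtain ⟨M₀, hM₀⟩ := eventually_atTop.1
      (Pool.Agent.U681.UT.unif hC.compact x μ hμ (ε := 1 / (8 * (k : ℝ))) (by positivity))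
    filter_upwards [hall, eventually_ge_atTop M₀] with N hN hNM₀ N' hNN'
    refine hN N' hNN' _ ?_
    rintro d ⟨h1, h2, y, h3, M, h4, h5, f, hf, hge⟩
    refine ⟨h1, h2, y, h3, M, h4, h5, f, hf, ?_⟩
    -- the symmetrised function
    set F : (Fin g → ℝ) → ℝ := fun a => (f a + f (fun i => (-1) ^ ((i : ℕ) + 1) * a i)) / 2 with hF
    have hFt : IsTest F := by
      refine ⟨LipschitzWith.of_dist_le_mul fun a b => ?_, fun a => ?_⟩
      · have e1 := hf.1.dist_le_mul a b
        have e2 := hf.1.dist_le_mul (fun i => (-1) ^ ((i : ℕ) + 1) * a i)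
          (fun i => (-1) ^ ((i : ℕ) + 1) * b i)
        have e3 : dist (fun i : Fin g => (-1) ^ ((i : ℕ) + 1) * a i)
            (fun i => (-1) ^ ((i : ℕ) + 1) * b i) ≤ dist a b := by
          rw [dist_pi_le_iff dist_nonneg]
          intro i
          rw [Real.dist_eq, ← mul_sub, abs_mul, abs_pow, abs_neg, abs_one, one_pow, one_mul,
            ← Real.dist_eq]
          exact dist_le_pi_dist a b i
        rw [NNReal.coe_one, one_mul] at e1 e2 ⊢
        rw [Real.dist_eq] at e1 e2 ⊢
        have e4 : F a - F b = ((f a - f b) + (f (fun i => (-1) ^ ((i : ℕ) + 1) * a i) -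
            f (fun i => (-1) ^ ((i : ℕ) + 1) * b i))) / 2 := by
          rw [hF]
          ring
        rw [e4, abs_le]
        rw [abs_le] at e1 e2
        constructor <;> linarith [e1.1, e1.2, e2.1, e2.2]
      · have e1 := hf.2 a
        have e2 := hf.2 (fun i => (-1) ^ ((i : ℕ) + 1) * a i)
        rw [abs_le] at e1 e2 ⊢
        simp only [hF]
        constructor <;> linarith [e1.1, e1.2, e2.1, e2.2]
    have hFx : ∀ M : GL (Fin g ⊕ Fin g) ℂ, F (lp M) = (f (lp M) + f (lp (-M))) / 2 := by
      intro M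
      rw [hF]
      have e1 : (fun i : Fin g => (-1 : ℝ) ^ ((i : ℕ) + 1) * lp M i) = lp (-M) := by
        funext i
        exact (cf_neg _ _).symm
      simp only [e1]
    have e1 := hM₀ M (hNM₀.trans h4) F hFt
    have e2 : mean K (fun v => F (lp (x v : GL (Fin g ⊕ Fin g) ℂ))) M =
        mean K (fun v => (f (lp (x v : GL (Fin g ⊕ Fin g) ℂ)) +
            f (lp (-(x v : GL (Fin g ⊕ Fin g) ℂ)))) / 2) M := by
      congr 1
      funext v
      exact hFx _
    have e3 : ∫ c : C, F (lp (c : GL (Fin g ⊕ Fin g) ℂ)) ∂μ =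
        ∫ z : C, f (lp (z : GL (Fin g ⊕ Fin g) ℂ)) ∂μ := by
      have e4 : (fun c : C => F (lp (c : GL (Fin g ⊕ Fin g) ℂ))) = fun c : C =>
          (f (lp (c : GL (Fin g ⊕ Fin g) ℂ)) + f (lp (-(c : GL (Fin g ⊕ Fin g) ℂ)))) / 2 := by
        funext c
        exact hFx _
      obtain ⟨i1, i2⟩ := Pool.Agent.U681.UT.integ_lp hC.compact μ hf.1.continuous
      rw [e4, integral_div, integral_add i1 i2,
        Pool.Agent.U681.UT.symm_int hC.compact hsp (neg_one_C hC hx) μ hf.1.continuous]
      ring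
    rw [e2, e3] at e1
    have e5 : (1 : ℝ) / k = 7 / (8 * k) + 1 / (8 * k) := by field_simp; norm_num
    rw [e5] at hge
    have e6 := abs_sub_le (mean K (fun v => f (lp (y v : GL (Fin g ⊕ Fin g) ℂ))) M)
      (mean K (fun v => (f (lp (x v : GL (Fin g ⊕ Fin g) ℂ)) +
            f (lp (-(x v : GL (Fin g ⊕ Fin g) ℂ)))) / 2) M)
      (∫ z : C, f (lp (z : GL (Fin g ⊕ Fin g) ℂ)) ∂μ)
    linarith

end Pool.Agent.Results.MP_c481b3_nt.UniformTwists
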